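import Mathlib

set_option autoImplicit false

/-!
# Symmetric tensor powers of bipartite graphs are not nested (MP_6750b5_co)

Let `G` be a finite bipartite graph with at least one edge. If `k` is even and `r` is odd then
the symmetric tensor power `G^{⊙k}` is not a weighted subgraph of `G^{⊙r}`: for an edge `ab` the
vertex `(a, ..., a, b, ..., b)` (each `k / 2` times) of `G^{⊙k}` has a loop of positive weight, while
no vertex of `G^{⊙r}` has such a loop, since in a tuple which can be rearranged so that its entries
become adjacent to the old ones each side of the bipartition occurs `r / 2` times.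
-/

namespace Pool.Agent.Results.MP_6750b5_co.EvenOddBipartite

open Finset

variable {n k : ℕ}

/-- The weight function of the graph on the vertices `Fin n` with adjacency relation `adj`
(loops allowed): `1` for adjacent vertices and `0` otherwise. -/
noncomputable def weight (adj : Fin n → Fin n → Prop) (a b : Fin n) : ℝ :=
  open Classical in if adj a b then 1 else 0

/-- `mult i l` is the number `m_l` of entries of the tuple `i` equal to `l`. -/
def mult (i : Fin k → Fin n) (l : Fin n) : ℕ := (univ.filter fun s => i s = l).card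

/-- The multinomial coefficient `k! / (m_1! ⋯ m_n!)` of the tuple `i`. -/
noncomputable def multinom (i : Fin k → Fin n) : ℝ :=
  (k.factorial : ℝ) / ∏ l, ((mult i l).factorial : ℝ)

/-- The set of all rearrangements of the tuple `i`. -/
noncomputable def orb (i : Fin k → Fin n) : Finset (Fin k → Fin n) :=
  open Classical in univ.filter fun p => ∃ σ : Equiv.Perm (Fin k), p = i ∘ σ

/-- The vertices of the `k`-th symmetric tensor power: the nondecreasing `k`-tuples. -/
abbrev PowVertex (n k : ℕ) : Type := {i : Fin k → Fin n // Monotone i}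

/-- The edge weights of the `k`-th symmetric tensor power of the graph `adj`. -/
noncomputable def powWeight (adj : Fin n → Fin n → Prop) (i j : PowVertex n k) : ℝ :=
  (multinom i.1 * multinom j.1) ^ (-(1 / 2) : ℝ) *
    ∑ p ∈ orb i.1, ∑ q ∈ orb j.1, ∏ l, weight adj (p l) (q l)

/-- The weighted graph with vertices `X` and weights `w` is a weighted subgraph of the weighted
graph with vertices `Y` and weights `w'`. -/
def IsWeightedSubgraph {X Y : Type} (w : X → X → ℝ) (w' : Y → Y → ℝ) : Prop :=
  ∃ φ : X → Y, Function.Injective φ ∧ ∀ x y, w x y ≤ w' (φ x) (φ y)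

theorem weight_nonneg (adj : Fin n → Fin n → Prop) (a b : Fin n) : 0 ≤ weight adj a b := by
  unfold weight; split_ifs <;> norm_num

theorem multinom_pos (i : Fin k → Fin n) : 0 < multinom i := by
  unfold multinom
  have h : 0 < ∏ l, ((mult i l).factorial : ℝ) :=
    prod_pos fun l _ => by exact_mod_cast Nat.factorial_pos _
  have h2 : (0 : ℝ) < k.factorial := by exact_mod_cast Nat.factorial_pos _
  positivity

theorem mem_orb {i p : Fin k → Fin n} : p ∈ orb i ↔ ∃ σ : Equiv.Perm (Fin k), p = i ∘ σ := by
  unfold orb; simp

/-- a loop of positive weight in the symmetric tensor power -/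
theorem pow_pos_iff (adj : Fin n → Fin n → Prop) (i j : PowVertex n k) :
    0 < powWeight adj i j ↔ ∃ p ∈ orb i.1, ∃ q ∈ orb j.1, ∀ l, adj (p l) (q l) := by
  have hc : 0 < (multinom i.1 * multinom j.1) ^ (-(1 / 2) : ℝ) :=
    Real.rpow_pos_of_pos (mul_pos (multinom_pos _) (multinom_pos _)) _
  have hnn : ∀ p q : Fin k → Fin n, 0 ≤ ∏ l, weight adj (p l) (q l) :=
    fun p q => prod_nonneg fun l _ => weight_nonneg adj _ _
  unfold powWeight
  rw [mul_pos_iff_of_pos_left hc]
  constructor
  · intro h
    obtain ⟨p, hp, h1⟩ := (sum_pos_iff_of_nonneg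
      (fun p _ => sum_nonneg fun q _ => hnn p q)).mp h
    obtain ⟨q, hq, h2⟩ := (sum_pos_iff_of_nonneg (fun q _ => hnn p q)).mp h1
    refine ⟨p, hp, q, hq, fun l => ?_⟩
    by_contra hl
    have : ∏ l, weight adj (p l) (q l) = 0 :=
      prod_eq_zero (mem_univ l) (by unfold weight; rw [if_neg hl])
    rw [this] at h2
    exact lt_irrefl _ h2
  · rintro ⟨p, hp, q, hq, h⟩
    refine sum_pos' (fun p _ => sum_nonneg fun q _ => hnn p q) ⟨p, hp, ?_⟩
    refine sum_pos' (fun q _ => hnn p q) ⟨q, hq, ?_⟩
    refine prod_pos fun l _ => ?_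
    unfold weight
    rw [if_pos (h l)]
    exact one_pos

/-- the number of entries with a given colour does not change under rearrangement -/
theorem card_col (c : Fin n → Bool) (i p : Fin k → Fin n) (hp : p ∈ orb i) (b : Bool) :
    (univ.filter fun s => c (p s) = b).card = (univ.filter fun s => c (i s) = b).card := by
  obtain ⟨σ, rfl⟩ := mem_orb.mp hp
  refine card_bij (fun s _ => σ s) ?_ ?_ ?_
  · intro s hs; simpa using hs
  · intro s _ t _ h; exact σ.injective h
  · intro t ht
    refine ⟨σ.symm t, ?_, by simp⟩
    simpa using ht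

/-- Let `adj` be the adjacency relation of a finite undirected graph on `Fin n` which is bipartite
(`c` is a proper colouring of the vertices with two colours) and has at least one edge. If `k` is
even and `r` is odd then the `k`-th symmetric tensor power of the graph is not a weighted subgraph
of the `r`-th symmetric tensor power. For example the graph may be one edge, `k = 2` and `r = 3`. -/
theorem result (n : ℕ) (adj : Fin n → Fin n → Prop) (hsymm : ∀ a b, adj a b → adj b a)
    (c : Fin n → Bool) (hc : ∀ a b, adj a b → c a ≠ c b) (hedge : ∃ a b, adj a b)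
    (k r : ℕ) (hk : Even k) (hr : Odd r) :
    ¬ IsWeightedSubgraph (powWeight adj (k := k)) (powWeight adj (k := r)) := by
  rintro ⟨φ, -, hφ⟩
  -- an edge `a b` with `a < b`
  obtain ⟨a, b, hab, hadj⟩ : ∃ a b, a < b ∧ adj a b := by
    obtain ⟨a, b, h⟩ := hedge
    rcases lt_trichotomy a b with h1 | h1 | h1
    · exact ⟨a, b, h1, h⟩
    · subst h1; exact absurd rfl (hc a a h)
    · exact ⟨b, a, h1, hsymm a b h⟩
  obtain ⟨t, ht⟩ := hk
  -- the vertex with a loop
  let x : Fin k → Fin n := fun l => if l.1 < t then a else b
  have hx : Monotone x := by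
    intro l m hlm
    have hlm' : l.1 ≤ m.1 := hlm
    simp only [x]
    split_ifs with h1 h2 h2
    · exact le_refl _
    · exact hab.le
    · omega
    · exact le_refl _
  let y : Fin k → Fin n := fun l => if l.1 < t then b else a
  have hy : y ∈ orb x := by
    rw [mem_orb]
    refine ⟨Fin.revPerm, ?_⟩
    funext l
    have hl := l.2
    simp only [x, y, Function.comp, Fin.revPerm_apply, Fin.val_rev]
    split_ifs with h1 h2 h2
    · omega
    · rfl
    · rfl
    · omega
  have hxx : x ∈ orb x := mem_orb.mpr ⟨1, rfl⟩
  have hpos : 0 < powWeight adj (⟨x, hx⟩ : PowVertex n k) ⟨x, hx⟩ := by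
    rw [pow_pos_iff]
    refine ⟨x, hxx, y, hy, fun l => ?_⟩
    simp only [x, y]
    split_ifs
    · exact hadj
    · exact hsymm _ _ hadj
  have hpos2 := lt_of_lt_of_le hpos (hφ ⟨x, hx⟩ ⟨x, hx⟩)
  rw [pow_pos_iff] at hpos2
  obtain ⟨p, hp, q, hq, h⟩ := hpos2
  -- count the entries of colour `true`
  have h1 := card_col c _ p hp true
  have h2 := card_col c _ q hq true
  have h3 : (univ.filter fun s => c (p s) = true) = univ \ (univ.filter fun s => c (q s) = true) := by
    ext s
    have := hc _ _ (h s)
    simp only [mem_filter, mem_univ, true_and, mem_sdiff]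
    cases h4 : c (p s) <;> cases h5 : c (q s) <;> simp_all
  have h4 := card_sdiff_add_card_eq_card (subset_univ (univ.filter fun s => c (q s) = true))
  rw [← h3, h1, ← h2, card_univ, Fintype.card_fin] at h4
  obtain ⟨u, hu⟩ := hr
  omega

end Pool.Agent.Results.MP_6750b5_co.EvenOddBipartite
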